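import Pool.Agent.WAP.StmtsP2

set_option autoImplicit false

namespace Pool.Agent.WAP.H59

open Pool.Agent.WAP Pool.Agent.WAP.P2 Classical

theorem idn_one {F : Type} [Field F] (x t : F) (hD : 3 * x * t - x - t - 1 ≠ 0) :
    cub (1 + (-2 * (x + t + 1) / (3 * x * t - x - t - 1)) * (x - 1)) =
      (-4 * (x + t + 1) * (t - 2 * x + 1) * (2 * t - x - 1) / (3 * x * t - x - t - 1) ^ 3) *
        cub x := by
  unfold cub
  obtain ⟨D, hDD⟩ : ∃ D, D = 3 * x * t - x - t - 1 := ⟨_, rfl⟩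
  rw [← hDD] at hD ⊢
  have h1 : (1 + (-2 * (x + t + 1) / D) * (x - 1)) = (D + (-2 * (x + t + 1)) * (x - 1)) / D := by
    rw [add_div, div_self hD, div_mul_eq_mul_div]
  rw [h1, div_pow, div_mul_eq_mul_div, eq_div_iff (pow_ne_zero 3 hD), sub_mul,
    div_mul_cancel₀ _ (pow_ne_zero 3 hD)]
  have h2 : (D + (-2 * (x + t + 1)) * (x - 1)) / D * D ^ 3 =
      (D + (-2 * (x + t + 1)) * (x - 1)) * D ^ 2 := by
    field_simp
  rw [h2, hDD]
  ring

theorem idn : IdnStmt := by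
  intro F _ x t hD
  refine ⟨idn_one x t hD, ?_⟩
  have hE : 3 * t * x - t - x - 1 = 3 * x * t - x - t - 1 := by ring
  have hD' : 3 * t * x - t - x - 1 ≠ 0 := by rw [hE]; exact hD
  have h := idn_one t x hD'
  rw [hE] at h
  have h1 : t + x + 1 = x + t + 1 := by ring
  rw [h1] at h
  rw [h]
  ring

end Pool.Agent.WAP.H59
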